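import Pool.Agent.W542.Tal.Main

set_option autoImplicit false

namespace Pool.Agent.W542.Tal

open Finset

theorem logb_inv_eq (x : ℝ) : Real.logb 2 (1 / x) = Real.log (1 / x) / Real.log 2 := by
  rw [Real.logb]

/-- one term, all influences -/
theorem term_all (x : ℝ) (hx0 : 0 ≤ x) (hx1 : x < 1) :
    Real.log 2 / 2 * (x * (4 - x) / (3 + 2 * Real.log (1 / x))) ≤ x / Real.logb 2 (1 / x) := by
  rcases eq_or_lt_of_le hx0 with h0 | h0
  · rw [← h0]; simp
  have hL : 0 < Real.log (1 / x) := Real.log_pos (by rw [lt_div_iff₀ h0]; linarith)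
  have hl2 : 0 < Real.log 2 := Real.log_pos (by norm_num)
  rw [logb_inv_eq]
  set L := Real.log (1 / x) with hLdef
  have h1 : (4 - x) / (3 + 2 * L) ≤ 2 / L := by
    rw [div_le_div_iff₀ (by linarith) hL]
    nlinarith
  calc Real.log 2 / 2 * (x * (4 - x) / (3 + 2 * L)) = Real.log 2 / 2 * x * ((4 - x) / (3 + 2 * L)) := by
        ring
    _ ≤ Real.log 2 / 2 * x * (2 / L) := mul_le_mul_of_nonneg_left h1 (by positivity)
    _ = x / (L / Real.log 2) := by field_simp

/-- one term, influence at least `1/32` -/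
theorem term_large (x : ℝ) (hx : 1 / 32 ≤ x) (hx1 : x < 1) :
    1 / 2 * (x * (4 - x) / (3 + 2 * Real.log (1 / x))) ≤ x / Real.logb 2 (1 / x) := by
  have h0 : 0 < x := by linarith
  have hL : 0 < Real.log (1 / x) := Real.log_pos (by rw [lt_div_iff₀ h0]; linarith)
  have hl2 : 0 < Real.log 2 := Real.log_pos (by norm_num)
  have hl2a := Real.log_two_gt_d9
  have hl2b := Real.log_two_lt_d9
  rw [logb_inv_eq]
  have hL5 : Real.log (1 / x) ≤ 5 * Real.log 2 := by
    have : 5 * Real.log 2 = Real.log 32 := by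
      rw [show (32 : ℝ) = 2 ^ 5 by norm_num, Real.log_pow]; norm_num
    rw [this]
    apply Real.log_le_log (by positivity)
    rw [div_le_iff₀ h0]
    linarith
  set L := Real.log (1 / x) with hLdef
  have h1 : (4 - x) / (3 + 2 * L) ≤ 2 * Real.log 2 / L := by
    rw [div_le_div_iff₀ (by linarith) hL]
    -- (4 - x) L <= 2 log 2 (3 + 2 L)
    have h2 : (4 - x - 4 * Real.log 2) * L ≤ 6 * Real.log 2 := by
      have h3 : (4 - x - 4 * Real.log 2) * L ≤ (4 - 1 / 32 - 4 * Real.log 2) * L :=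
        mul_le_mul_of_nonneg_right (by linarith) hL.le
      have h4 : (4 - 1 / 32 - 4 * Real.log 2) * L ≤ (4 - 1 / 32 - 4 * Real.log 2) * (5 * Real.log 2) :=
        mul_le_mul_of_nonneg_left hL5 (by linarith)
      have h5 : (4 - 1 / 32 - 4 * Real.log 2) * (5 * Real.log 2) ≤ 6 / 5 * (5 * Real.log 2) :=
        mul_le_mul_of_nonneg_right (by linarith) (by linarith)
      linarith
    nlinarith
  calc 1 / 2 * (x * (4 - x) / (3 + 2 * L)) = 1 / 2 * x * ((4 - x) / (3 + 2 * L)) := by
        ring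
    _ ≤ 1 / 2 * x * (2 * Real.log 2 / L) := mul_le_mul_of_nonneg_left h1 (by positivity)
    _ = x / (L / Real.log 2) := by field_simp

/-- the constant `2 ln 2` for every set -/
theorem const_all (n : ℕ) (A : Finset (Fin n → Bool)) (h : ∀ i, beta i A ≠ 1) :
    2 * Real.log 2 * ((A.card : ℝ) / 2 ^ n) * (1 - (A.card : ℝ) / 2 ^ n) ≤
      ∑ i : Fin n, beta i A / Real.logb 2 (1 / beta i A) := by
  have hm := main_ineq n A
  have hl2 : 0 < Real.log 2 := Real.log_pos (by norm_num)
  have h1 : Real.log 2 / 2 * ∑ i : Fin n, beta i A * (4 - beta i A) /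
      (3 + 2 * Real.log (1 / beta i A)) ≤ ∑ i : Fin n, beta i A / Real.logb 2 (1 / beta i A) := by
    rw [mul_sum]
    refine sum_le_sum fun i _ => ?_
    exact term_all _ (beta_nonneg i A) (lt_of_le_of_ne (beta_le_one i A) (h i))
  have h2 := mul_le_mul_of_nonneg_left hm (by positivity : 0 ≤ Real.log 2 / 2)
  calc _ = Real.log 2 / 2 * (4 * ((A.card : ℝ) / 2 ^ n) * (1 - (A.card : ℝ) / 2 ^ n)) := by ring
    _ ≤ _ := h2
    _ ≤ _ := h1

/-- the constant `2` when no nonzero influence is below `1/32` -/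
theorem const_large (n : ℕ) (A : Finset (Fin n → Bool)) (h : ∀ i, beta i A ≠ 1)
    (h32 : ∀ i, beta i A = 0 ∨ 1 / 32 ≤ beta i A) :
    2 * ((A.card : ℝ) / 2 ^ n) * (1 - (A.card : ℝ) / 2 ^ n) ≤
      ∑ i : Fin n, beta i A / Real.logb 2 (1 / beta i A) := by
  have hm := main_ineq n A
  have h1 : 1 / 2 * ∑ i : Fin n, beta i A * (4 - beta i A) /
      (3 + 2 * Real.log (1 / beta i A)) ≤ ∑ i : Fin n, beta i A / Real.logb 2 (1 / beta i A) := by
    rw [mul_sum]
    refine sum_le_sum fun i _ => ?_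
    rcases h32 i with h0 | h0
    · rw [h0]; simp
    · exact term_large _ h0 (lt_of_le_of_ne (beta_le_one i A) (h i))
  linarith

/-- a nonempty boundary has at least two points -/
theorem two_le_bd {n : ℕ} (i : Fin n) (A : Finset (Fin n → Bool)) (h : (bd i A).Nonempty) :
    2 ≤ (bd i A).card := by
  obtain ⟨x, hx⟩ := h
  have hy : flip i x ∈ bd i A := (mem_bd_flip i A x).2 hx
  have : ({flip i x, x} : Finset (Fin n → Bool)) ⊆ bd i A := by
    intro z hz
    simp only [mem_insert, mem_singleton] at hz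
    rcases hz with rfl | rfl
    · exact hy
    · exact hx
  have h2 := card_le_card this
  rw [card_pair (flip_ne_self i x)] at h2
  exact h2

theorem beta_small_dim {n : ℕ} (hn : n ≤ 6) (i : Fin n) (A : Finset (Fin n → Bool)) :
    beta i A = 0 ∨ 1 / 32 ≤ beta i A := by
  rcases (bd i A).eq_empty_or_nonempty with h | h
  · left; unfold beta; rw [h]; simp
  · right
    unfold beta
    have h2 : (2 : ℝ) ≤ (bd i A).card := by exact_mod_cast two_le_bd i A h
    have h3 : (2 : ℝ) ^ n ≤ 2 ^ 6 := pow_le_pow_right₀ (by norm_num) hn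
    rw [le_div_iff₀ (by positivity)]
    nlinarith

end Pool.Agent.W542.Tal
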