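import Pool.Agent.W542.Tal.Coro

set_option autoImplicit false

namespace Pool.Agent.W542.Tal

open Finset

/-- monomial -/
def mono {n : ℕ} (T : Finset (Fin n)) (x : Fin n → Bool) : ℝ := ∏ j ∈ T, (if x j then (1 : ℝ) else 0)

/-- `f` is a multilinear real polynomial of degree at most `d` in the bits -/
def DegLe {n : ℕ} (d : ℕ) (f : (Fin n → Bool) → ℝ) : Prop :=
  ∃ c : Finset (Fin n) → ℝ, (∀ T, d < T.card → c T = 0) ∧
    ∀ x, f x = ∑ T : Finset (Fin n), c T * ∏ j ∈ T, (if x j then (1 : ℝ) else 0)

/-- discrete derivative -/
def pd {n : ℕ} (i : Fin n) (f : (Fin n → Bool) → ℝ) (x : Fin n → Bool) : ℝ :=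
  f (Function.update x i true) - f (Function.update x i false)

theorem mono_update {n : ℕ} (i : Fin n) (T : Finset (Fin n)) (x : Fin n → Bool) (b : Bool) (h : i ∈ T) :
    mono T (Function.update x i b) = (if b then (1 : ℝ) else 0) * mono (T.erase i) x := by
  unfold mono
  rw [← mul_prod_erase T _ h]
  congr 1
  · simp
  · refine prod_congr rfl fun j hj => ?_
    rw [Function.update_of_ne (ne_of_mem_erase hj)]

theorem mono_update_not {n : ℕ} (i : Fin n) (T : Finset (Fin n)) (x : Fin n → Bool) (b : Bool)
    (h : i ∉ T) : mono T (Function.update x i b) = mono T x := by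
  unfold mono
  refine prod_congr rfl fun j hj => ?_
  have hji : j ≠ i := by
    rintro rfl
    exact h hj
  rw [Function.update_of_ne hji]

theorem pd_mono {n : ℕ} (i : Fin n) (T : Finset (Fin n)) (x : Fin n → Bool) :
    pd i (mono T) x = if i ∈ T then mono (T.erase i) x else 0 := by
  unfold pd
  split_ifs with h
  · rw [mono_update i T x true h, mono_update i T x false h]; simp
  · rw [mono_update_not i T x true h, mono_update_not i T x false h]; simp

theorem DegLe.pd {n : ℕ} {d : ℕ} {f : (Fin n → Bool) → ℝ} (h : DegLe (d + 1) f) (i : Fin n) :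
    DegLe d (pd i f) := by
  obtain ⟨c, hc, hf⟩ := h
  refine ⟨fun U => if i ∈ U then 0 else c (insert i U), ?_, ?_⟩
  · intro U hU
    simp only
    split_ifs with hi
    · rfl
    · apply hc
      rw [card_insert_of_notMem hi]
      omega
  · intro x
    have e1 : Pool.Agent.W542.Tal.pd i f x = ∑ T : Finset (Fin n), c T * Pool.Agent.W542.Tal.pd i (mono T) x := by
      unfold Pool.Agent.W542.Tal.pd mono
      rw [hf, hf, ← sum_sub_distrib]
      refine sum_congr rfl fun T _ => ?_
      ring
    rw [e1]
    simp_rw [pd_mono]
    have e2 : ∑ T : Finset (Fin n), c T * (if i ∈ T then mono (T.erase i) x else 0) =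
        ∑ T ∈ (univ : Finset (Finset (Fin n))).filter (fun T => i ∈ T), c T * mono (T.erase i) x := by
      rw [sum_filter]
      refine sum_congr rfl fun T _ => ?_
      split_ifs <;> simp
    have e3 : ∑ U : Finset (Fin n), (if i ∈ U then 0 else c (insert i U)) *
        ∏ j ∈ U, (if x j then (1 : ℝ) else 0) =
        ∑ U ∈ (univ : Finset (Finset (Fin n))).filter (fun U => i ∉ U), c (insert i U) * mono U x := by
      rw [sum_filter]
      refine sum_congr rfl fun T _ => ?_
      unfold mono
      split_ifs <;> simp
    rw [e2, e3]
    refine sum_bij' (fun T _ => T.erase i) (fun U _ => insert i U) ?_ ?_ ?_ ?_ ?_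
    · intro T hT; simp
    · intro U hU; simp
    · intro T hT
      exact insert_erase (by simpa using hT)
    · intro U hU
      exact erase_insert (by simpa using hU)
    · intro T hT
      rw [insert_erase (by simpa using hT)]

theorem const_of_pd {n : ℕ} (f : (Fin n → Bool) → ℝ) (h : ∀ i x, pd i f x = 0) (x y : Fin n → Bool) :
    f x = f y := by
  have hu : ∀ (i : Fin n) (z : Fin n → Bool) (b : Bool), f (Function.update z i b) = f z := by
    intro i z b
    have h1 := h i z
    unfold pd at h1
    have h2 : Function.update z i (z i) = z := Function.update_eq_self i z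
    cases hz : z i <;> rw [hz] at h2 <;> cases b
    · rw [h2]
    · rw [← h2, Function.update_idem] 
      linarith
    · rw [← h2, Function.update_idem]
      linarith
    · rw [h2]
  have : ∀ s : Finset (Fin n), f (s.piecewise y x) = f x := by
    intro s
    induction s using Finset.induction_on with
    | empty => simp
    | insert j s hj ih => rw [piecewise_insert, hu, ih]
  have h2 := this univ
  rw [piecewise_univ] at h2
  exact h2.symm

/-- a nonzero polynomial of degree at most `d` is nonzero on at least `2^(n-d)` points -/
theorem supp_card {n : ℕ} : ∀ (d : ℕ) (f : (Fin n → Bool) → ℝ), DegLe d f → (∃ x, f x ≠ 0) →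
    2 ^ n ≤ 2 ^ d * (univ.filter fun x => f x ≠ 0).card := by
  intro d
  induction d with
  | zero =>
    intro f hd hx
    obtain ⟨c, hc, hf⟩ := hd
    obtain ⟨x0, hx0⟩ := hx
    have e : ∀ x, f x = c ∅ := by
      intro x
      rw [hf, sum_eq_single ∅]
      · simp
      · intro T _ hT
        rw [hc T (card_pos.2 (nonempty_iff_ne_empty.2 hT))]; simp
      · intro h; exact absurd (mem_univ _) h
    have : (univ.filter fun x => f x ≠ 0) = univ := by
      ext x
      simp only [mem_filter, mem_univ, true_and, iff_true]
      rw [e x, ← e x0]; exact hx0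
    rw [this]
    simp
  | succ d ih =>
    intro f hd hx
    by_cases hc : ∀ i x, pd i f x = 0
    · obtain ⟨x0, hx0⟩ := hx
      have : (univ.filter fun x => f x ≠ 0) = univ := by
        ext x
        simp only [mem_filter, mem_univ, true_and, iff_true]
        rw [const_of_pd f hc x x0]; exact hx0
      rw [this]
      simp only [card_univ, Fintype.card_fun, Fintype.card_bool, Fintype.card_fin]
      exact Nat.le_mul_of_pos_left _ (by positivity)
    · push Not at hc
      obtain ⟨i, x1, hx1⟩ := hc
      have h1 := ih (pd i f) (hd.pd i) ⟨x1, hx1⟩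
      have h2 : (univ.filter fun x => pd i f x ≠ 0) ⊆
          (univ.filter fun x => f x ≠ 0) ∪ (univ.filter fun x => f x ≠ 0).image (flip i) := by
        intro x hx
        simp only [mem_filter, mem_univ, true_and] at hx
        simp only [mem_union, mem_filter, mem_univ, true_and, mem_image]
        by_contra hcon
        push Not at hcon
        obtain ⟨ha, hb⟩ := hcon
        apply hx
        have hfl : f (flip i x) = 0 := by
          by_contra hne
          exact hb (flip i x) hne (flip_flip i x)
        unfold pd
        have h3 : Function.update x i (x i) = x := Function.update_eq_self i x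
        unfold flip at hfl
        cases hz : x i <;> rw [hz] at h3 hfl
        · rw [h3, ha]
          simp only [Bool.not_false] at hfl
          rw [hfl]; simp
        · rw [h3, ha]
          simp only [Bool.not_true] at hfl
          rw [hfl]; simp
      have h3 := card_le_card h2
      have h4 := card_union_le (univ.filter fun x => f x ≠ 0)
        ((univ.filter fun x => f x ≠ 0).image (flip i))
      have h5 : ((univ.filter fun x => f x ≠ 0).image (flip i)).card ≤
          (univ.filter fun x => f x ≠ 0).card := card_image_le
      calc 2 ^ n ≤ 2 ^ d * (univ.filter fun x => pd i f x ≠ 0).card := h1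
        _ ≤ 2 ^ d * (2 * (univ.filter fun x => f x ≠ 0).card) := by
            apply Nat.mul_le_mul_left; omega
        _ = _ := by ring

theorem bd_eq {n : ℕ} (i : Fin n) (A : Finset (Fin n → Bool)) :
    bd i A = univ.filter fun x => pd i (ind A) x ≠ 0 := by
  ext x
  rw [mem_bd]
  simp only [mem_filter, mem_univ, true_and]
  unfold pd flip ind
  have h3 : Function.update x i (x i) = x := Function.update_eq_self i x
  cases hz : x i <;> rw [hz] at h3 <;> simp only [Bool.not_false, Bool.not_true, h3] <;>
    by_cases h1 : x ∈ A <;> by_cases h2 : Function.update x i true ∈ A <;>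
    by_cases h4 : Function.update x i false ∈ A <;> simp_all

theorem beta_degree {n : ℕ} (i : Fin n) (A : Finset (Fin n → Bool)) (h : DegLe 6 (ind A)) :
    beta i A = 0 ∨ 1 / 32 ≤ beta i A := by
  by_cases hc : ∃ x, pd i (ind A) x ≠ 0
  · right
    have h1 := supp_card 5 (pd i (ind A)) (h.pd i) hc
    rw [← bd_eq] at h1
    unfold beta
    rw [le_div_iff₀ (by positivity)]
    have h2 : (2 : ℝ) ^ n ≤ 2 ^ 5 * (bd i A).card := by exact_mod_cast h1
    linarith
  · left
    push Not at hc
    unfold beta
    rw [bd_eq]
    simp [hc]

end Pool.Agent.W542.Tal
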