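import Pool.Agent.W542.Tal.Coro

set_option autoImplicit false

namespace Pool.Agent.W542.Tal

open Finset

theorem entropy_ge (x : ℝ) (h0 : 0 ≤ x) (h1 : x ≤ 1 / 2) : 2 * x * Real.log 2 ≤ Real.binEntropy x := by
  have hc := Real.strictConcave_binEntropy.concaveOn
  have h := hc.2 (by simp : (0 : ℝ) ∈ Set.Icc (0 : ℝ) 1)
    (by norm_num : (2⁻¹ : ℝ) ∈ Set.Icc (0 : ℝ) 1) (by linarith : 0 ≤ 1 - 2 * x)
    (by linarith : 0 ≤ 2 * x) (by ring)
  simp only [smul_eq_mul, Real.binEntropy_zero, mul_zero, zero_add, Real.binEntropy_two_inv] at h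
  have e : 2 * x * 2⁻¹ = x := by ring
  rw [e] at h
  exact h

theorem two_logs (a b : ℝ) (hb : 0 ≤ b) (hab : b ≤ a) :
    a * Real.log a + b * Real.log b + 2 * b * Real.log 2 ≤ (a + b) * Real.log (a + b) := by
  rcases eq_or_lt_of_le hb with h0 | h0
  · rw [← h0]; simp
  have ha : 0 < a := by linarith
  have hs : 0 < a + b := by linarith
  have h := entropy_ge (b / (a + b)) (by positivity) (by rw [div_le_div_iff₀ hs (by norm_num)]; linarith)
  rw [Real.binEntropy] at h
  have e1 : 1 - b / (a + b) = a / (a + b) := by field_simp; ring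
  rw [e1, inv_div, inv_div, Real.log_div hs.ne' h0.ne', Real.log_div hs.ne' ha.ne'] at h
  have h2 := mul_le_mul_of_nonneg_left h hs.le
  have e2 : (a + b) * (2 * (b / (a + b)) * Real.log 2) = 2 * b * Real.log 2 := by
    field_simp
  have e3 : (a + b) * (b / (a + b) * (Real.log (a + b) - Real.log b) +
      a / (a + b) * (Real.log (a + b) - Real.log a)) =
      b * (Real.log (a + b) - Real.log b) + a * (Real.log (a + b) - Real.log a) := by
    field_simp
  rw [e2, e3] at h2
  linarith

theorem two_logs' (a b : ℝ) (ha : 0 ≤ a) (hb : 0 ≤ b) :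
    a * Real.log a + b * Real.log b + ((a + b) - |a - b|) * Real.log 2 ≤
      (a + b) * Real.log (a + b) := by
  rcases le_total b a with h | h
  · rw [abs_of_nonneg (by linarith)]
    have := two_logs a b hb h
    linarith
  · rw [abs_of_nonpos (by linarith)]
    have := two_logs b a ha h
    rw [add_comm b a] at this
    linarith

/-- section of a set -/
def sec {n : ℕ} (b : Bool) (A : Finset (Fin (n + 1) → Bool)) : Finset (Fin n → Bool) :=
  univ.filter fun x => (Fin.cons b x : Fin (n + 1) → Bool) ∈ A

theorem card_cons {n : ℕ} (A : Finset (Fin (n + 1) → Bool)) :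
    (A.card : ℝ) = (sec true A).card + (sec false A).card := by
  have h : ∀ (m : ℕ) (B : Finset (Fin m → Bool)), (B.card : ℝ) = ∑ x, (if x ∈ B then (1 : ℝ) else 0) := by
    intro m B; simp
  rw [h, h, h, sum_cons, sum_add_distrib]
  simp [sec]

theorem sec_bd_succ {n : ℕ} (b : Bool) (i : Fin n) (A : Finset (Fin (n + 1) → Bool)) :
    sec b (bd i.succ A) = bd i (sec b A) := by
  ext x
  simp only [sec, mem_filter, mem_univ, true_and, mem_bd]
  have : flip i.succ (Fin.cons b x : Fin (n + 1) → Bool) = Fin.cons b (flip i x) := by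
    unfold flip
    rw [Fin.cons_succ, Fin.cons_update]
  rw [this]

theorem card_bd_zero {n : ℕ} (A : Finset (Fin (n + 1) → Bool)) :
    2 * |((sec true A).card : ℝ) - (sec false A).card| ≤ (bd 0 A).card := by
  have hflip : ∀ (b : Bool) (x : Fin n → Bool),
      flip 0 (Fin.cons b x : Fin (n + 1) → Bool) = Fin.cons (!b) x := by
    intro b x
    unfold flip
    rw [Fin.cons_zero, Fin.update_cons_zero]
  have h1 : sec true (bd 0 A) = (sec true A \ sec false A) ∪ (sec false A \ sec true A) := by
    ext x
    simp only [sec, mem_filter, mem_univ, true_and, mem_bd, hflip, Bool.not_true, mem_union, mem_sdiff]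
    tauto
  have h2 : sec false (bd 0 A) = (sec true A \ sec false A) ∪ (sec false A \ sec true A) := by
    ext x
    simp only [sec, mem_filter, mem_univ, true_and, mem_bd, hflip, Bool.not_false, mem_union, mem_sdiff]
    tauto
  rw [card_cons, h1, h2]
  have hd : Disjoint (sec true A \ sec false A) (sec false A \ sec true A) := by
    rw [disjoint_left]
    intro x hx hy
    simp only [mem_sdiff] at hx hy
    exact hx.2 hy.1
  rw [card_union_of_disjoint hd]
  have e1 : ((sec true A).card : ℝ) ≤ (sec true A \ sec false A).card + (sec false A).card := by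
    have := card_le_card_sdiff_add_card (s := sec true A) (t := sec false A)
    exact_mod_cast this
  have e2 : ((sec false A).card : ℝ) ≤ (sec false A \ sec true A).card + (sec true A).card := by
    have := card_le_card_sdiff_add_card (s := sec false A) (t := sec true A)
    exact_mod_cast this
  have p1 : (0 : ℝ) ≤ (sec true A \ sec false A).card := by positivity
  have p2 : (0 : ℝ) ≤ (sec false A \ sec true A).card := by positivity
  push_cast
  rw [show (2 : ℝ) * |((sec true A).card : ℝ) - (sec false A).card| =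
    |((sec true A).card : ℝ) - (sec false A).card| + |((sec true A).card : ℝ) - (sec false A).card| by ring]
  have : |((sec true A).card : ℝ) - (sec false A).card| ≤
      (sec true A \ sec false A).card + (sec false A \ sec true A).card := by
    rw [abs_le]; constructor <;> linarith
  linarith

/-- edge-isoperimetric inequality -/
theorem harper : ∀ (n : ℕ) (A : Finset (Fin n → Bool)),
    2 * (A.card : ℝ) * (n * Real.log 2 - Real.log A.card) ≤
      Real.log 2 * ∑ i : Fin n, ((bd i A).card : ℝ) := by
  intro n
  induction n with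
  | zero =>
    intro A
    simp only [univ_eq_empty, sum_empty, mul_zero, CharP.cast_eq_zero, zero_mul, zero_sub]
    have h1 : A.card ≤ 1 := by
      have := card_le_univ A
      simpa using this
    interval_cases hA : A.card <;> simp
  | succ n ih =>
    intro A
    have h1 := ih (sec true A)
    have h0 := ih (sec false A)
    have hl2 : 0 < Real.log 2 := Real.log_pos (by norm_num)
    have hz := card_bd_zero A
    have hs : ∑ i : Fin (n + 1), ((bd i A).card : ℝ) = (bd 0 A).card +
        (∑ i : Fin n, ((bd i (sec true A)).card : ℝ) + ∑ i : Fin n, ((bd i (sec false A)).card : ℝ)) := by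
      rw [Fin.sum_univ_succ, ← sum_add_distrib]
      congr 1
      refine sum_congr rfl fun i _ => ?_
      rw [card_cons (bd i.succ A), sec_bd_succ, sec_bd_succ]
    rw [hs, card_cons A]
    have ht := two_logs' ((sec true A).card : ℝ) ((sec false A).card : ℝ) (by positivity) (by positivity)
    have hz2 := mul_le_mul_of_nonneg_left hz hl2.le
    push_cast
    nlinarith

/-- total influence -/
theorem sum_beta (n : ℕ) (A : Finset (Fin n → Bool)) (hA : 0 < A.card) :
    2 * ((A.card : ℝ) / 2 ^ n) * Real.logb 2 (1 / ((A.card : ℝ) / 2 ^ n)) ≤ ∑ i : Fin n, beta i A := by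
  have h := harper n A
  have hl2 : 0 < Real.log 2 := Real.log_pos (by norm_num)
  have hc : (0 : ℝ) < A.card := by exact_mod_cast hA
  have h2 : (0 : ℝ) < 2 ^ n := by positivity
  have e1 : Real.log (1 / ((A.card : ℝ) / 2 ^ n)) = n * Real.log 2 - Real.log A.card := by
    rw [one_div_div, Real.log_div h2.ne' hc.ne', Real.log_pow]
  rw [logb_inv_eq, e1]
  unfold beta
  rw [← sum_div]
  rw [show 2 * ((A.card : ℝ) / 2 ^ n) * ((n * Real.log 2 - Real.log A.card) / Real.log 2) =
    (2 * (A.card : ℝ) * (n * Real.log 2 - Real.log A.card)) / (2 ^ n * Real.log 2) by field_simp]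
  rw [div_le_div_iff₀ (by positivity) h2]
  calc 2 * (A.card : ℝ) * (n * Real.log 2 - Real.log A.card) * 2 ^ n ≤
      (Real.log 2 * ∑ i : Fin n, ((bd i A).card : ℝ)) * 2 ^ n := mul_le_mul_of_nonneg_right h h2.le
    _ = _ := by ring

/-- constant `2` when every nonzero influence is at least `p^(1/(1-p))` -/
theorem const_harper (n : ℕ) (A : Finset (Fin n → Bool)) (h0 : 0 < A.card) (h1 : A.card < 2 ^ n)
    (h : ∀ i, beta i A ≠ 1)
    (hb : ∀ i, beta i A = 0 ∨
      ((A.card : ℝ) / 2 ^ n) ^ (1 / (1 - (A.card : ℝ) / 2 ^ n)) ≤ beta i A) :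
    2 * ((A.card : ℝ) / 2 ^ n) * (1 - (A.card : ℝ) / 2 ^ n) ≤
      ∑ i : Fin n, beta i A / Real.logb 2 (1 / beta i A) := by
  have hs := sum_beta n A h0
  set p : ℝ := (A.card : ℝ) / 2 ^ n with hp
  have hl2 : 0 < Real.log 2 := Real.log_pos (by norm_num)
  have hp0 : 0 < p := by
    have : (0 : ℝ) < A.card := by exact_mod_cast h0
    positivity
  have hp1 : p < 1 := by
    rw [hp, div_lt_one (by positivity)]
    exact_mod_cast h1
  have hq : 0 < 1 - p := by linarith
  set K := Real.logb 2 (1 / p) with hK
  have hK0 : 0 < K := Real.logb_pos (by norm_num) (by rw [lt_div_iff₀ hp0]; linarith)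
  have hterm : ∀ i : Fin n, beta i A * ((1 - p) / K) ≤ beta i A / Real.logb 2 (1 / beta i A) := by
    intro i
    rcases hb i with e | e
    · rw [e]; simp
    · have hpp : 0 < p ^ (1 / (1 - p)) := Real.rpow_pos_of_pos hp0 _
      have hbi : 0 < beta i A := lt_of_lt_of_le hpp e
      have hbi1 : beta i A < 1 := lt_of_le_of_ne (beta_le_one i A) (h i)
      have hk0 : 0 < Real.logb 2 (1 / beta i A) :=
        Real.logb_pos (by norm_num) (by rw [lt_div_iff₀ hbi]; linarith)
      have hk : Real.logb 2 (1 / beta i A) ≤ K / (1 - p) := by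
        have e2 : K / (1 - p) = Real.logb 2 (1 / p ^ (1 / (1 - p))) := by
          rw [hK, one_div, Real.logb_inv, one_div (p ^ (1 / (1 - p))), Real.logb_inv,
            Real.logb_rpow_eq_mul_logb_of_pos hp0]
          ring
        rw [e2]
        apply Real.logb_le_logb_of_le (by norm_num) (by positivity)
        exact one_div_le_one_div_of_le hpp e
      rw [mul_div_assoc', div_le_div_iff₀ hK0 hk0]
      rw [le_div_iff₀ hq] at hk
      nlinarith
  calc 2 * p * (1 - p) = (2 * p * K) * ((1 - p) / K) := by field_simp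
    _ ≤ (∑ i : Fin n, beta i A) * ((1 - p) / K) :=
        mul_le_mul_of_nonneg_right hs (by positivity)
    _ = ∑ i : Fin n, beta i A * ((1 - p) / K) := by rw [sum_mul]
    _ ≤ _ := sum_le_sum fun i _ => hterm i

end Pool.Agent.W542.Tal
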