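import Pool.Agent.W542.Tal.Degree
import Pool.Agent.W542.Tal.Harper

set_option autoImplicit false

namespace Pool.Agent.W542.Tal

open Finset

theorem bd_compl {n : ℕ} (i : Fin n) (A : Finset (Fin n → Bool)) : bd i Aᶜ = bd i A := by
  ext x
  rw [mem_bd, mem_bd]
  simp only [mem_compl]
  tauto

theorem card_compl_div {n : ℕ} (A : Finset (Fin n → Bool)) :
    ((Aᶜ.card : ℕ) : ℝ) / 2 ^ n = 1 - (A.card : ℝ) / 2 ^ n := by
  have h := card_add_card_compl A
  rw [Fintype.card_fun, Fintype.card_bool, Fintype.card_fin] at h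
  have h2 : (A.card : ℝ) + (Aᶜ.card : ℕ) = 2 ^ n := by exact_mod_cast h
  have h3 : (0 : ℝ) < 2 ^ n := by positivity
  field_simp
  linarith

theorem sum_nonneg_terms (n : ℕ) (A : Finset (Fin n → Bool)) :
    0 ≤ ∑ i : Fin n, beta i A / Real.logb 2 (1 / beta i A) := by
  apply sum_nonneg
  intro i _
  rcases eq_or_lt_of_le (beta_nonneg i A) with h | h
  · rw [← h]; simp
  · apply div_nonneg h.le
    apply Real.logb_nonneg (by norm_num)
    rw [le_div_iff₀ h]
    linarith [beta_le_one i A]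

theorem const_min (n : ℕ) (A : Finset (Fin n → Bool)) (h : ∀ i, beta i A ≠ 1)
    (hb : ∀ i, beta i A = 0 ∨
      min (((A.card : ℝ) / 2 ^ n) ^ (1 / (1 - (A.card : ℝ) / 2 ^ n)))
        ((1 - (A.card : ℝ) / 2 ^ n) ^ (1 / ((A.card : ℝ) / 2 ^ n))) ≤ beta i A) :
    2 * ((A.card : ℝ) / 2 ^ n) * (1 - (A.card : ℝ) / 2 ^ n) ≤
      ∑ i : Fin n, beta i A / Real.logb 2 (1 / beta i A) := by
  have hn := sum_nonneg_terms n A
  have hle : A.card ≤ 2 ^ n := by
    have := card_le_univ A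
    simpa using this
  rcases Nat.eq_zero_or_pos A.card with h0 | h0
  · rw [h0]; simpa using hn
  rcases eq_or_lt_of_le hle with h1 | h1
  · have : (A.card : ℝ) / 2 ^ n = 1 := by rw [h1]; push_cast; field_simp
    rw [this]; simpa using hn
  rcases min_choice (((A.card : ℝ) / 2 ^ n) ^ (1 / (1 - (A.card : ℝ) / 2 ^ n)))
        ((1 - (A.card : ℝ) / 2 ^ n) ^ (1 / ((A.card : ℝ) / 2 ^ n))) with hm | hm
  · rw [hm] at hb
    exact const_harper n A h0 h1 h hb
  · rw [hm] at hb
    have hbe : ∀ i, beta i Aᶜ = beta i A := by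
      intro i; unfold beta; rw [bd_compl]
    have hcard : A.card + Aᶜ.card = 2 ^ n := by
      have h := card_add_card_compl A
      rwa [Fintype.card_fun, Fintype.card_bool, Fintype.card_fin] at h
    have hq := card_compl_div A
    have hr := const_harper n Aᶜ (by omega) (by omega) (fun i => by rw [hbe]; exact h i)
      (fun i => by
        rw [hbe, hq]
        have := hb i
        rw [sub_sub_cancel]
        exact this)
    simp only [hbe] at hr
    rw [hq, sub_sub_cancel] at hr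
    calc _ = 2 * (1 - (A.card : ℝ) / 2 ^ n) * ((A.card : ℝ) / 2 ^ n) := by ring
      _ ≤ _ := hr

theorem const_min3 (n : ℕ) (A : Finset (Fin n → Bool)) (h : ∀ i, beta i A ≠ 1)
    (hb : ∀ i, beta i A = 0 ∨
      min (1 / 32) (min (((A.card : ℝ) / 2 ^ n) ^ (1 / (1 - (A.card : ℝ) / 2 ^ n)))
        ((1 - (A.card : ℝ) / 2 ^ n) ^ (1 / ((A.card : ℝ) / 2 ^ n)))) ≤ beta i A) :
    2 * ((A.card : ℝ) / 2 ^ n) * (1 - (A.card : ℝ) / 2 ^ n) ≤
      ∑ i : Fin n, beta i A / Real.logb 2 (1 / beta i A) := by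
  rcases min_choice (1 / 32 : ℝ) (min (((A.card : ℝ) / 2 ^ n) ^ (1 / (1 - (A.card : ℝ) / 2 ^ n)))
        ((1 - (A.card : ℝ) / 2 ^ n) ^ (1 / ((A.card : ℝ) / 2 ^ n)))) with hm | hm
  · rw [hm] at hb
    exact const_large n A h hb
  · rw [hm] at hb
    exact const_min n A h hb

/-- comparison of the two sums -/
theorem sum_compare (n : ℕ) (A : Finset (Fin n → Bool)) (h : ∀ i, beta i A ≠ 1) :
    ∑ i : Fin n, beta i A * (4 - beta i A) / (3 + 2 * Real.log (1 / beta i A)) ≤
      2 / Real.log 2 * ∑ i : Fin n, beta i A / Real.logb 2 (1 / beta i A) := by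
  have hl2 : 0 < Real.log 2 := Real.log_pos (by norm_num)
  rw [mul_sum]
  refine sum_le_sum fun i _ => ?_
  have := term_all _ (beta_nonneg i A) (lt_of_le_of_ne (beta_le_one i A) (h i))
  calc _ = 2 / Real.log 2 * (Real.log 2 / 2 * (beta i A * (4 - beta i A) /
        (3 + 2 * Real.log (1 / beta i A)))) := by field_simp
    _ ≤ _ := mul_le_mul_of_nonneg_left this (by positivity)

end Pool.Agent.W542.Tal
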