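import Pool.Agent.W542.Tal.Hyper

set_option autoImplicit false

namespace Pool.Agent.W542.Tal

open Finset

/-- flip of the coordinate `i` -/
def flip {n : ℕ} (i : Fin n) (x : Fin n → Bool) : Fin n → Bool := Function.update x i (!(x i))

theorem flip_flip {n : ℕ} (i : Fin n) (x : Fin n → Bool) : flip i (flip i x) = x := by
  unfold flip
  ext j
  by_cases h : j = i
  · subst h; simp
  · simp [Function.update_of_ne h]

theorem flip_same {n : ℕ} (i : Fin n) (x : Fin n → Bool) : flip i x i = !(x i) := by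
  unfold flip; simp

theorem flip_ne {n : ℕ} (i j : Fin n) (h : j ≠ i) (x : Fin n → Bool) : flip i x j = x j := by
  unfold flip; simp [Function.update_of_ne h]

theorem flip_ne_self {n : ℕ} (i : Fin n) (x : Fin n → Bool) : flip i x ≠ x := by
  intro h
  have := congrFun h i
  rw [flip_same] at this
  cases hx : x i <;> simp [hx] at this

/-- the flip as a permutation -/
def flipE {n : ℕ} (i : Fin n) : Equiv.Perm (Fin n → Bool) :=
  Function.Involutive.toPerm (flip i) (flip_flip i)

theorem sum_flip {n : ℕ} (i : Fin n) (F : (Fin n → Bool) → ℝ) : ∑ x, F (flip i x) = ∑ x, F x :=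
  Equiv.sum_comp (flipE i) F

/-- kernel without the coordinate `i` -/
def kerE (n : ℕ) (i : Fin n) (t : ℝ) (x y : Fin n → Bool) : ℝ :=
  ∏ j ∈ univ.erase i, (1 + t * sg (x j) (y j))

theorem ker_eq (n : ℕ) (i : Fin n) (t : ℝ) (x y : Fin n → Bool) :
    ker n t x y = (1 + t * sg (x i) (y i)) * kerE n i t x y := by
  unfold ker kerE
  rw [mul_prod_erase univ (fun j => 1 + t * sg (x j) (y j)) (mem_univ i)]

theorem kerE_nonneg (n : ℕ) (i : Fin n) (t : ℝ) (ht0 : 0 ≤ t) (ht1 : t ≤ 1) (x y : Fin n → Bool) :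
    0 ≤ kerE n i t x y := prod_nonneg fun _ _ => sg_nonneg_ker t ht0 ht1 _ _

theorem kerE_flip_left (n : ℕ) (i : Fin n) (t : ℝ) (x y : Fin n → Bool) :
    kerE n i t (flip i x) y = kerE n i t x y := by
  unfold kerE
  refine prod_congr rfl fun j hj => ?_
  rw [flip_ne i j (ne_of_mem_erase hj)]

theorem kerE_flip_right (n : ℕ) (i : Fin n) (t : ℝ) (x y : Fin n → Bool) :
    kerE n i t x (flip i y) = kerE n i t x y := by
  unfold kerE
  refine prod_congr rfl fun j hj => ?_
  rw [flip_ne i j (ne_of_mem_erase hj)]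

/-- sign of a bit -/
def sb (a : Bool) : ℝ := if a then 1 else -1

theorem sg_eq (a b : Bool) : sg a b = sb a * sb b := by
  cases a <;> cases b <;> simp [sg, sb]

theorem sb_not (a : Bool) : sb (!a) = - sb a := by
  cases a <;> simp [sb]

/-- indicator function -/
def ind {n : ℕ} (A : Finset (Fin n → Bool)) (x : Fin n → Bool) : ℝ := if x ∈ A then 1 else 0

/-- points whose edge in direction `i` is a boundary edge -/
def bd {n : ℕ} (i : Fin n) (A : Finset (Fin n → Bool)) : Finset (Fin n → Bool) :=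
  univ.filter (fun x => ¬ (x ∈ A ↔ Function.update x i (!(x i)) ∈ A))

theorem mem_bd {n : ℕ} (i : Fin n) (A : Finset (Fin n → Bool)) (x : Fin n → Bool) :
    x ∈ bd i A ↔ ¬ (x ∈ A ↔ flip i x ∈ A) := by
  unfold bd flip; simp

theorem mem_bd_flip {n : ℕ} (i : Fin n) (A : Finset (Fin n → Bool)) (x : Fin n → Bool) :
    flip i x ∈ bd i A ↔ x ∈ bd i A := by
  rw [mem_bd, mem_bd, flip_flip]
  tauto

theorem ind_bd_flip {n : ℕ} (i : Fin n) (A : Finset (Fin n → Bool)) (x : Fin n → Bool) :
    ind (bd i A) (flip i x) = ind (bd i A) x := by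
  unfold ind
  simp only [mem_bd_flip]

theorem abs_diff {n : ℕ} (i : Fin n) (A : Finset (Fin n → Bool)) (x : Fin n → Bool) :
    |ind A x - ind A (flip i x)| = ind (bd i A) x := by
  unfold ind
  simp only [mem_bd]
  by_cases h1 : x ∈ A <;> by_cases h2 : flip i x ∈ A <;> simp [h1, h2]

/-- derivative piece in direction `i` -/
def Q (n : ℕ) (i : Fin n) (t : ℝ) (A : Finset (Fin n → Bool)) : ℝ :=
  ∑ x, ∑ y, ind A x * ind A y * (sg (x i) (y i) * kerE n i t x y)

theorem sym_left {n : ℕ} (i : Fin n) (t : ℝ) (y : Fin n → Bool) (f : (Fin n → Bool) → ℝ) :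
    ∑ x, sb (x i) * f x * kerE n i t x y =
      ∑ x, (sb (x i) * (f x - f (flip i x)) / 2) * kerE n i t x y := by
  have h1 : ∑ x, sb (x i) * f x * kerE n i t x y =
      ∑ x, (- (sb (x i) * f (flip i x))) * kerE n i t x y := by
    rw [← sum_flip i (fun x => sb (x i) * f x * kerE n i t x y)]
    refine sum_congr rfl fun x _ => ?_
    rw [flip_same, sb_not, kerE_flip_left]
    ring
  have h2 : ∑ x, (sb (x i) * (f x - f (flip i x)) / 2) * kerE n i t x y =
      (∑ x, sb (x i) * f x * kerE n i t x y +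
        ∑ x, (- (sb (x i) * f (flip i x))) * kerE n i t x y) / 2 := by
    rw [← sum_add_distrib, sum_div]
    refine sum_congr rfl fun x _ => ?_
    ring
  rw [h2, ← h1]
  ring

theorem Q_eq (n : ℕ) (i : Fin n) (t : ℝ) (A : Finset (Fin n → Bool)) :
    Q n i t A = ∑ x, ∑ y, (sb (x i) * (ind A x - ind A (flip i x)) / 2) *
      (sb (y i) * (ind A y - ind A (flip i y)) / 2) * kerE n i t x y := by
  unfold Q
  have e1 : ∀ y : Fin n → Bool, ∑ x, ind A x * ind A y * (sg (x i) (y i) * kerE n i t x y) =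
      (sb (y i) * ind A y) * ∑ x, sb (x i) * ind A x * kerE n i t x y := by
    intro y
    rw [mul_sum]
    refine sum_congr rfl fun x _ => ?_
    rw [sg_eq]; ring
  rw [sum_comm]
  simp_rw [e1, sym_left]
  simp_rw [mul_sum]
  rw [sum_comm]
  refine sum_congr rfl fun x _ => ?_
  have e2 := sym_left i t x (ind A)
  have e3 : ∀ y, kerE n i t y x = kerE n i t x y := by
    intro y
    unfold kerE
    refine prod_congr rfl fun j _ => ?_
    unfold sg
    simp only [eq_comm]
  simp only [e3] at e2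
  calc _ = (sb (x i) * (ind A x - ind A (flip i x)) / 2) * ∑ y, sb (y i) * ind A y * kerE n i t x y := by
        rw [mul_sum]
        refine sum_congr rfl fun y _ => ?_
        ring
    _ = (sb (x i) * (ind A x - ind A (flip i x)) / 2) *
        ∑ y, (sb (y i) * (ind A y - ind A (flip i y)) / 2) * kerE n i t x y := by rw [e2]
    _ = _ := by
        rw [mul_sum]
        refine sum_congr rfl fun y _ => ?_
        ring

theorem abs_sb (a : Bool) : |sb a| = 1 := by cases a <;> simp [sb]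

theorem Q_le_kerE (n : ℕ) (i : Fin n) (t : ℝ) (ht0 : 0 ≤ t) (ht1 : t ≤ 1)
    (A : Finset (Fin n → Bool)) :
    Q n i t A ≤ 1 / 4 * ∑ x, ∑ y, ind (bd i A) x * ind (bd i A) y * kerE n i t x y := by
  rw [Q_eq, mul_sum]
  refine sum_le_sum fun x _ => ?_
  rw [mul_sum]
  refine sum_le_sum fun y _ => ?_
  have hk := kerE_nonneg n i t ht0 ht1 x y
  have hx : |sb (x i) * (ind A x - ind A (flip i x)) / 2| = ind (bd i A) x / 2 := by
    rw [abs_div, abs_mul, abs_sb, abs_diff]; norm_num
  have hy : |sb (y i) * (ind A y - ind A (flip i y)) / 2| = ind (bd i A) y / 2 := by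
    rw [abs_div, abs_mul, abs_sb, abs_diff]; norm_num
  have h := le_abs_self ((sb (x i) * (ind A x - ind A (flip i x)) / 2) *
      (sb (y i) * (ind A y - ind A (flip i y)) / 2))
  rw [abs_mul, hx, hy] at h
  calc _ ≤ (ind (bd i A) x / 2 * (ind (bd i A) y / 2)) * kerE n i t x y :=
        mul_le_mul_of_nonneg_right h hk
    _ = _ := by ring

theorem S_bd (n : ℕ) (i : Fin n) (t : ℝ) (A : Finset (Fin n → Bool)) :
    S n t (ind (bd i A)) (ind (bd i A)) =
      ∑ x, ∑ y, ind (bd i A) x * ind (bd i A) y * kerE n i t x y := by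
  unfold S
  have h0 : ∀ y : Fin n → Bool, ∑ x, sb (x i) * ind (bd i A) x * kerE n i t x y = 0 := by
    intro y
    rw [sym_left]
    refine sum_eq_zero fun x _ => ?_
    rw [ind_bd_flip]; ring
  rw [sum_comm, sum_comm (f := fun x y => ind (bd i A) x * ind (bd i A) y * kerE n i t x y)]
  refine sum_congr rfl fun y _ => ?_
  have e : ∑ x, ind (bd i A) x * ind (bd i A) y * ker n t x y =
      ∑ x, ind (bd i A) x * ind (bd i A) y * kerE n i t x y +
      (t * sb (y i) * ind (bd i A) y) * ∑ x, sb (x i) * ind (bd i A) x * kerE n i t x y := by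
    rw [mul_sum, ← sum_add_distrib]
    refine sum_congr rfl fun x _ => ?_
    rw [ker_eq n i, sg_eq]; ring
  rw [e, h0 y]
  ring

theorem Q_le (n : ℕ) (i : Fin n) (t : ℝ) (ht0 : 0 ≤ t) (ht1 : t ≤ 1)
    (A : Finset (Fin n → Bool)) :
    Q n i t A ≤ 1 / 4 * S n t (ind (bd i A)) (ind (bd i A)) := by
  rw [S_bd]
  exact Q_le_kerE n i t ht0 ht1 A

theorem S_ind_le (n : ℕ) (t : ℝ) (ht0 : 0 ≤ t) (ht1 : t ≤ 1) (B : Finset (Fin n → Bool)) :
    S n t (ind B) (ind B) ≤ 4 ^ n * ((B.card : ℝ) / 2 ^ n) ^ (2 / (1 + t)) := by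
  have hp : 0 < 1 + t := by linarith
  have hpos : ∀ x, 0 ≤ ind B x := by intro x; unfold ind; split_ifs <;> norm_num
  have h := hyper t ht0 ht1 n (ind B) (ind B) hpos hpos
  have e : ∑ x, ind B x ^ (1 + t) = (B.card : ℝ) := by
    have : ∀ x, ind B x ^ (1 + t) = ind B x := by
      intro x
      unfold ind
      split_ifs
      · simp
      · rw [Real.zero_rpow hp.ne']
    simp_rw [this]
    unfold ind
    simp
  rw [e] at h
  refine h.trans (le_of_eq ?_)
  have hb : (0 : ℝ) ≤ B.card := by positivity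
  rw [← Real.rpow_add_of_nonneg hb (by positivity) (by positivity)]
  have e2 : 1 / (1 + t) + 1 / (1 + t) = 2 / (1 + t) := by ring
  rw [e2, mul_pow, div_eq_mul_one_div (B.card : ℝ), Real.mul_rpow hb (by positivity)]
  have e3 : ((1 / 2 : ℝ) ^ (2 / (1 + t))) ^ n = (1 / 2 ^ n : ℝ) ^ (2 / (1 + t)) := by
    rw [← Real.rpow_natCast, ← Real.rpow_mul (by norm_num), mul_comm (2 / (1 + t)),
      Real.rpow_mul (by norm_num), Real.rpow_natCast, one_div_pow]
  rw [e3]
  ring

end Pool.Agent.W542.Tal
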