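import Pool.Agent.W542.Tal.TwoPoint

set_option autoImplicit false

namespace Pool.Agent.W542.Tal

open Finset

/-- agreement sign of two bits -/
def sg (a b : Bool) : ℝ := if a = b then 1 else -1

/-- noise kernel -/
def ker (n : ℕ) (t : ℝ) (x y : Fin n → Bool) : ℝ := ∏ i, (1 + t * sg (x i) (y i))

/-- unnormalised noise form -/
def S (n : ℕ) (t : ℝ) (f g : (Fin n → Bool) → ℝ) : ℝ := ∑ x, ∑ y, f x * g y * ker n t x y

theorem sg_nonneg_ker (t : ℝ) (ht0 : 0 ≤ t) (ht1 : t ≤ 1) (a b : Bool) : 0 ≤ 1 + t * sg a b := by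
  unfold sg; split_ifs <;> linarith

theorem ker_nonneg (n : ℕ) (t : ℝ) (ht0 : 0 ≤ t) (ht1 : t ≤ 1) (x y : Fin n → Bool) :
    0 ≤ ker n t x y := prod_nonneg fun _ _ => sg_nonneg_ker t ht0 ht1 _ _

theorem sum_cons {n : ℕ} (F : (Fin (n + 1) → Bool) → ℝ) :
    ∑ x, F x = ∑ x : Fin n → Bool, (F (Fin.cons true x) + F (Fin.cons false x)) := by
  rw [← (Fin.consEquiv (fun _ : Fin (n + 1) => Bool)).sum_comp, Fintype.sum_prod_type]
  simp only [Fintype.sum_bool]
  rw [← sum_add_distrib]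
  rfl

theorem ker_cons (n : ℕ) (t : ℝ) (a b : Bool) (x y : Fin n → Bool) :
    ker (n + 1) t (Fin.cons a x) (Fin.cons b y) = (1 + t * sg a b) * ker n t x y := by
  unfold ker
  rw [Fin.prod_univ_succ]
  simp only [Fin.cons_zero, Fin.cons_succ]

theorem S_cons (n : ℕ) (t : ℝ) (f g : (Fin (n + 1) → Bool) → ℝ) :
    S (n + 1) t f g =
      (1 + t) * (S n t (fun x => f (Fin.cons true x)) (fun x => g (Fin.cons true x)) +
        S n t (fun x => f (Fin.cons false x)) (fun x => g (Fin.cons false x))) +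
      (1 - t) * (S n t (fun x => f (Fin.cons true x)) (fun x => g (Fin.cons false x)) +
        S n t (fun x => f (Fin.cons false x)) (fun x => g (Fin.cons true x))) := by
  unfold S
  rw [sum_cons]
  simp only [sum_cons, ker_cons]
  simp only [mul_add, mul_sum, ← sum_add_distrib]
  refine sum_congr rfl fun x _ => sum_congr rfl fun y _ => ?_
  simp only [sg, if_true, reduceCtorEq, if_false]
  ring

theorem cs2 (t X Y Z W : ℝ) (ht0 : 0 ≤ t) :
    (X * Z + t * Y * W) ^ 2 ≤ (X ^ 2 + t * Y ^ 2) * (Z ^ 2 + t * W ^ 2) := by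
  have h : (X ^ 2 + t * Y ^ 2) * (Z ^ 2 + t * W ^ 2) - (X * Z + t * Y * W) ^ 2 =
      t * (X * W - Y * Z) ^ 2 := by ring
  have h2 : 0 ≤ t * (X * W - Y * Z) ^ 2 := mul_nonneg ht0 (sq_nonneg _)
  linarith

/-- hypercontractivity for nonnegative functions, bilinear form -/
theorem hyper (t : ℝ) (ht0 : 0 ≤ t) (ht1 : t ≤ 1) : ∀ (n : ℕ) (f g : (Fin n → Bool) → ℝ),
    (∀ x, 0 ≤ f x) → (∀ x, 0 ≤ g x) →
    S n t f g ≤ (4 * (1 / 2 : ℝ) ^ (2 / (1 + t))) ^ n *
      ((∑ x, f x ^ (1 + t)) ^ (1 / (1 + t)) * (∑ x, g x ^ (1 + t)) ^ (1 / (1 + t))) := by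
  have hp : 0 < 1 + t := by linarith
  intro n
  induction n with
  | zero =>
    intro f g hf hg
    unfold S ker
    simp only [univ_unique, sum_singleton, univ_eq_empty, prod_empty, mul_one, pow_zero, one_mul]
    rw [← Real.rpow_mul (hf _), ← Real.rpow_mul (hg _), mul_one_div_cancel hp.ne']
    simp
  | succ n ih =>
    intro f g hf hg
    rw [S_cons]
    set f1 : (Fin n → Bool) → ℝ := fun x => f (Fin.cons true x) with hf1
    set f0 : (Fin n → Bool) → ℝ := fun x => f (Fin.cons false x) with hf0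
    set g1 : (Fin n → Bool) → ℝ := fun x => g (Fin.cons true x) with hg1
    set g0 : (Fin n → Bool) → ℝ := fun x => g (Fin.cons false x) with hg0
    set N : ((Fin n → Bool) → ℝ) → ℝ := fun h => (∑ x, h x ^ (1 + t)) ^ (1 / (1 + t)) with hN
    have hS : ∀ h : (Fin n → Bool) → ℝ, (∀ x, 0 ≤ h x) → 0 ≤ ∑ x, h x ^ (1 + t) :=
      fun h hh => sum_nonneg fun x _ => Real.rpow_nonneg (hh x) _
    have hNn : ∀ h : (Fin n → Bool) → ℝ, (∀ x, 0 ≤ h x) → 0 ≤ N h :=
      fun h hh => Real.rpow_nonneg (hS h hh) _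
    have hNp : ∀ h : (Fin n → Bool) → ℝ, (∀ x, 0 ≤ h x) → N h ^ (1 + t) = ∑ x, h x ^ (1 + t) := by
      intro h hh
      rw [hN]
      simp only
      rw [← Real.rpow_mul (hS h hh), one_div_mul_cancel hp.ne', Real.rpow_one]
    have hsf : ∑ x, f x ^ (1 + t) = N f1 ^ (1 + t) + N f0 ^ (1 + t) := by
      rw [hNp f1 (fun x => hf _), hNp f0 (fun x => hf _), sum_cons, sum_add_distrib]
    have hsg : ∑ x, g x ^ (1 + t) = N g1 ^ (1 + t) + N g0 ^ (1 + t) := by
      rw [hNp g1 (fun x => hg _), hNp g0 (fun x => hg _), sum_cons, sum_add_distrib]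
    set c : ℝ := 4 * (1 / 2 : ℝ) ^ (2 / (1 + t)) with hc
    have hc0 : 0 < c := by positivity
    have hcn : 0 < c ^ n := by positivity
    have i11 := ih f1 g1 (fun x => hf _) (fun x => hg _)
    have i00 := ih f0 g0 (fun x => hf _) (fun x => hg _)
    have i10 := ih f1 g0 (fun x => hf _) (fun x => hg _)
    have i01 := ih f0 g1 (fun x => hf _) (fun x => hg _)
    set a := N f1 with ha
    set b := N f0 with hb
    set d := N g1 with hd
    set e := N g0 with he
    have ha0 : 0 ≤ a := hNn _ fun x => hf _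
    have hb0 : 0 ≤ b := hNn _ fun x => hf _
    have hd0 : 0 ≤ d := hNn _ fun x => hg _
    have he0 : 0 ≤ e := hNn _ fun x => hg _
    have j11 : S n t f1 g1 ≤ c ^ n * (a * d) := i11
    have j00 : S n t f0 g0 ≤ c ^ n * (b * e) := i00
    have j10 : S n t f1 g0 ≤ c ^ n * (a * e) := i10
    have j01 : S n t f0 g1 ≤ c ^ n * (b * d) := i01
    have key : (1 + t) * (S n t f1 g1 + S n t f0 g0) + (1 - t) * (S n t f1 g0 + S n t f0 g1) ≤
        c ^ n * ((a + b) * (d + e) + t * (a - b) * (d - e)) := by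
      have h1 : (1 + t) * (S n t f1 g1 + S n t f0 g0) ≤ (1 + t) * (c ^ n * (a * d) + c ^ n * (b * e)) :=
        mul_le_mul_of_nonneg_left (add_le_add j11 j00) (by linarith)
      have h2 : (1 - t) * (S n t f1 g0 + S n t f0 g1) ≤ (1 - t) * (c ^ n * (a * e) + c ^ n * (b * d)) :=
        mul_le_mul_of_nonneg_left (add_le_add j10 j01) (by linarith)
      calc _ ≤ (1 + t) * (c ^ n * (a * d) + c ^ n * (b * e)) +
            (1 - t) * (c ^ n * (a * e) + c ^ n * (b * d)) := add_le_add h1 h2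
        _ = _ := by ring
    refine key.trans ?_
    rw [hsf, hsg, pow_succ, mul_assoc (c ^ n) c]
    apply mul_le_mul_of_nonneg_left _ hcn.le
    set A := (a ^ (1 + t) + b ^ (1 + t)) ^ (1 / (1 + t)) with hA
    set D := (d ^ (1 + t) + e ^ (1 + t)) ^ (1 / (1 + t)) with hD
    have hA0 : 0 ≤ A := by positivity
    have hD0 : 0 ≤ D := by positivity
    have tp : ∀ u v : ℝ, 0 ≤ u → 0 ≤ v → (u + v) ^ 2 + t * (u - v) ^ 2 ≤
        c * ((u ^ (1 + t) + v ^ (1 + t)) ^ (1 / (1 + t))) ^ 2 := by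
      intro u v hu hv
      have h := two_point (1 + t) u v (by linarith) (by linarith) hu hv
      have e0 : (1 + t) - 1 = t := by ring
      rw [e0] at h
      refine h.trans (le_of_eq ?_)
      have hs : 0 ≤ u ^ (1 + t) + v ^ (1 + t) := by positivity
      rw [div_eq_mul_one_div, Real.mul_rpow hs (by norm_num), hc]
      rw [← Real.rpow_natCast ((u ^ (1 + t) + v ^ (1 + t)) ^ (1 / (1 + t))) 2, ← Real.rpow_mul hs]
      have : 1 / (1 + t) * ((2 : ℕ) : ℝ) = 2 / (1 + t) := by push_cast; ring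
      rw [this]
      ring
    have t1 := tp a b ha0 hb0
    have t2 := tp d e hd0 he0
    rw [← hA] at t1
    rw [← hD] at t2
    -- two dimensional Cauchy-Schwarz
    have cs : ((a + b) * (d + e) + t * (a - b) * (d - e)) ^ 2 ≤
        ((a + b) ^ 2 + t * (a - b) ^ 2) * ((d + e) ^ 2 + t * (d - e) ^ 2) :=
      cs2 t _ _ _ _ ht0
    have hfin : ((a + b) * (d + e) + t * (a - b) * (d - e)) ^ 2 ≤ (c * (A * D)) ^ 2 := by
      calc _ ≤ ((a + b) ^ 2 + t * (a - b) ^ 2) * ((d + e) ^ 2 + t * (d - e) ^ 2) := cs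
        _ ≤ (c * A ^ 2) * (c * D ^ 2) := by
            apply mul_le_mul t1 t2 (by positivity) (by positivity)
        _ = _ := by ring
    exact (le_abs_self _).trans (abs_le_of_sq_le_sq hfin (by positivity))

end Pool.Agent.W542.Tal
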