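import Pool.Agent.W542.Tal.Flip

set_option autoImplicit false

namespace Pool.Agent.W542.Tal

open Finset

theorem hasDerivAt_ker (n : ℕ) (x y : Fin n → Bool) (t : ℝ) :
    HasDerivAt (fun t => ker n t x y) (∑ i, sg (x i) (y i) * kerE n i t x y) t := by
  unfold ker kerE
  have h : ∀ i ∈ (univ : Finset (Fin n)),
      HasDerivAt (fun t : ℝ => 1 + t * sg (x i) (y i)) (sg (x i) (y i)) t := by
    intro i _
    simpa using ((hasDerivAt_id t).mul_const (sg (x i) (y i))).const_add 1
  have := HasDerivAt.fun_finsetProd h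
  refine this.congr_deriv ?_
  refine sum_congr rfl fun i _ => ?_
  simp only [smul_eq_mul]
  ring

theorem hasDerivAt_S (n : ℕ) (A : Finset (Fin n → Bool)) (t : ℝ) :
    HasDerivAt (fun t => S n t (ind A) (ind A)) (∑ i, Q n i t A) t := by
  unfold S Q
  have h : HasDerivAt (fun t => ∑ x, ∑ y, ind A x * ind A y * ker n t x y)
      (∑ x, ∑ y, ind A x * ind A y * ∑ i, sg (x i) (y i) * kerE n i t x y) t := by
    apply HasDerivAt.fun_sum
    intro x _
    apply HasDerivAt.fun_sum
    intro y _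
    exact (hasDerivAt_ker n x y t).const_mul _
  refine h.congr_deriv ?_
  simp_rw [mul_sum]
  rw [sum_comm (s := univ) (t := univ) (f := fun i x => ∑ y, ind A x * ind A y *
    (sg (x i) (y i) * kerE n i t x y))]
  refine sum_congr rfl fun x _ => ?_
  rw [sum_comm]

theorem S_zero (n : ℕ) (A : Finset (Fin n → Bool)) :
    S n 0 (ind A) (ind A) = (A.card : ℝ) ^ 2 := by
  unfold S ker
  simp only [zero_mul, add_zero, prod_const_one, mul_one]
  simp_rw [← mul_sum, ← sum_mul]
  unfold ind
  simp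
  ring

theorem ker_one (n : ℕ) (x y : Fin n → Bool) : ker n 1 x y = if x = y then 2 ^ n else 0 := by
  unfold ker
  split_ifs with h
  · subst h
    simp only [sg, if_true, mul_one]
    norm_num
  · have : ∃ i, x i ≠ y i := by
      by_contra hc
      push Not at hc
      exact h (funext hc)
    obtain ⟨i, hi⟩ := this
    apply prod_eq_zero (mem_univ i)
    simp [sg, hi]

theorem S_one (n : ℕ) (A : Finset (Fin n → Bool)) :
    S n 1 (ind A) (ind A) = 2 ^ n * (A.card : ℝ) := by
  unfold S
  simp_rw [ker_one]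
  simp only [mul_ite, mul_zero, sum_ite_eq, mem_univ, if_true]
  unfold ind
  simp [mul_comm]

/-- the comparison function -/
noncomputable def E (L t : ℝ) : ℝ :=
  (Real.exp (-L * ((1 - t) / (1 + t))) * (1 + t) ^ 2 / 2 + Real.exp (-L / 3) * (t - t ^ 2) / 2) /
    (L + 3 / 2)

theorem hasDerivAt_E (L t : ℝ) (ht : 0 ≤ t) :
    HasDerivAt (E L) ((Real.exp (-L * ((1 - t) / (1 + t))) * (L + 1 + t) +
      Real.exp (-L / 3) * (1 / 2 - t)) / (L + 3 / 2)) t := by
  unfold E
  have hp : 1 + t ≠ 0 := by linarith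
  have d0 : HasDerivAt (fun t : ℝ => 1 - t) (-1) t := by simpa using (hasDerivAt_id t).const_sub 1
  have d1 : HasDerivAt (fun t : ℝ => 1 + t) 1 t := by simpa using (hasDerivAt_id t).const_add 1
  have d2 : HasDerivAt (fun t : ℝ => (1 - t) / (1 + t)) ((-1 * (1 + t) - (1 - t) * 1) / (1 + t) ^ 2) t :=
    d0.div d1 hp
  have d3 : HasDerivAt (fun t : ℝ => Real.exp (-L * ((1 - t) / (1 + t))))
      (Real.exp (-L * ((1 - t) / (1 + t))) * (-L * ((-1 * (1 + t) - (1 - t) * 1) / (1 + t) ^ 2))) t :=
    (d2.const_mul (-L)).exp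
  have d4 : HasDerivAt (fun t : ℝ => (1 + t) ^ 2) (2 * (1 + t)) t := by
    have := d1.fun_pow 2
    simpa using this
  have d5 : HasDerivAt (fun t : ℝ => t - t ^ 2) (1 - 2 * t) t := by
    have h5 : HasDerivAt (fun t : ℝ => t - t ^ 2) _ t := (hasDerivAt_id t).sub (hasDerivAt_pow 2 t)
    refine h5.congr_deriv ?_
    simp
  have d6 := (((d3.mul d4).div_const 2).add ((d5.const_mul (Real.exp (-L / 3))).div_const 2)).div_const
    (L + 3 / 2)
  refine d6.congr_deriv ?_
  congr 1
  field_simp
  ring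

theorem E_deriv_ge (L t : ℝ) (hL : 0 ≤ L) (ht : 0 ≤ t) (ht1 : t ≤ 1) :
    Real.exp (-L * ((1 - t) / (1 + t))) ≤ (Real.exp (-L * ((1 - t) / (1 + t))) * (L + 1 + t) +
      Real.exp (-L / 3) * (1 / 2 - t)) / (L + 3 / 2) := by
  rw [le_div_iff₀ (by linarith)]
  have key : Real.exp (-L * ((1 - t) / (1 + t))) * (1 / 2 - t) ≤ Real.exp (-L / 3) * (1 / 2 - t) := by
    have hp : 0 < 1 + t := by linarith
    rcases le_total t (1 / 2) with h | h
    · apply mul_le_mul_of_nonneg_right _ (by linarith)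
      apply Real.exp_le_exp.2
      have : 1 / 3 ≤ (1 - t) / (1 + t) := by rw [le_div_iff₀ hp]; linarith
      nlinarith
    · apply mul_le_mul_of_nonpos_right _ (by linarith)
      apply Real.exp_le_exp.2
      have : (1 - t) / (1 + t) ≤ 1 / 3 := by rw [div_le_iff₀ hp]; linarith
      nlinarith
  nlinarith

theorem E_diff (L : ℝ) (hL : 0 ≤ L) :
    E L 1 - E L 0 = (4 - Real.exp (-L)) / (3 + 2 * L) := by
  unfold E
  have h : L + 3 / 2 ≠ 0 := by linarith
  have h' : 3 + 2 * L ≠ 0 := by linarith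
  norm_num
  field_simp
  ring

/-- density of the boundary in direction `i` = influence -/
noncomputable def beta {n : ℕ} (i : Fin n) (A : Finset (Fin n → Bool)) : ℝ :=
  ((bd i A).card : ℝ) / 2 ^ n

theorem beta_nonneg {n : ℕ} (i : Fin n) (A : Finset (Fin n → Bool)) : 0 ≤ beta i A := by
  unfold beta; positivity

theorem beta_le_one {n : ℕ} (i : Fin n) (A : Finset (Fin n → Bool)) : beta i A ≤ 1 := by
  unfold beta
  rw [div_le_one (by positivity)]
  have : (bd i A).card ≤ 2 ^ n := by
    have := card_le_univ (bd i A)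
    simpa using this
  exact_mod_cast this

theorem Q_le_beta {n : ℕ} (i : Fin n) (A : Finset (Fin n → Bool)) (t : ℝ) (ht0 : 0 ≤ t)
    (ht1 : t ≤ 1) :
    Q n i t A / 4 ^ n ≤ 1 / 4 * (beta i A *
      ((Real.exp (-(-Real.log (beta i A)) * ((1 - t) / (1 + t))) * (-Real.log (beta i A) + 1 + t) +
      Real.exp (-(-Real.log (beta i A)) / 3) * (1 / 2 - t)) / (-Real.log (beta i A) + 3 / 2))) := by
  have hp : 0 < 1 + t := by linarith
  have h1 : Q n i t A / 4 ^ n ≤ 1 / 4 * beta i A ^ (2 / (1 + t)) := by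
    rw [div_le_iff₀ (by positivity)]
    have := Q_le n i t ht0 ht1 A
    have h2 := S_ind_le n t ht0 ht1 (bd i A)
    unfold beta
    calc _ ≤ _ := this
      _ ≤ 1 / 4 * (4 ^ n * ((bd i A).card / 2 ^ n : ℝ) ^ (2 / (1 + t))) := by linarith
      _ = _ := by ring
  refine h1.trans ?_
  apply mul_le_mul_of_nonneg_left _ (by norm_num)
  rcases eq_or_lt_of_le (beta_nonneg i A) with h0 | h0
  · rw [← h0]
    rw [Real.zero_rpow (by positivity)]
    simp
  · have hL : 0 ≤ -Real.log (beta i A) := by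
      have := Real.log_nonpos h0.le (beta_le_one i A)
      linarith
    have h3 := E_deriv_ge (-Real.log (beta i A)) t hL ht0 ht1
    have h4 : beta i A ^ (2 / (1 + t)) =
        beta i A * Real.exp (-(-Real.log (beta i A)) * ((1 - t) / (1 + t))) := by
      rw [Real.rpow_def_of_pos h0]
      calc Real.exp (Real.log (beta i A) * (2 / (1 + t))) =
          Real.exp (Real.log (beta i A) +
            (-(-Real.log (beta i A)) * ((1 - t) / (1 + t)))) := by
            congr 1
            field_simp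
            ring
        _ = Real.exp (Real.log (beta i A)) *
            Real.exp (-(-Real.log (beta i A)) * ((1 - t) / (1 + t))) := Real.exp_add _ _
        _ = _ := by rw [Real.exp_log h0]
    rw [h4]
    exact mul_le_mul_of_nonneg_left h3 h0.le

theorem main_ineq (n : ℕ) (A : Finset (Fin n → Bool)) :
    4 * ((A.card : ℝ) / 2 ^ n) * (1 - (A.card : ℝ) / 2 ^ n) ≤
      ∑ i : Fin n, beta i A * (4 - beta i A) / (3 + 2 * Real.log (1 / beta i A)) := by
  set F : ℝ → ℝ := fun t => S n t (ind A) (ind A) / 4 ^ n -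
    1 / 4 * ∑ i : Fin n, beta i A * E (-Real.log (beta i A)) t with hF
  set F' : ℝ → ℝ := fun t => (∑ i, Q n i t A) / 4 ^ n -
    1 / 4 * ∑ i : Fin n, beta i A *
      ((Real.exp (-(-Real.log (beta i A)) * ((1 - t) / (1 + t))) * (-Real.log (beta i A) + 1 + t) +
      Real.exp (-(-Real.log (beta i A)) / 3) * (1 / 2 - t)) / (-Real.log (beta i A) + 3 / 2)) with hF'
  have hd : ∀ t, 0 ≤ t → HasDerivAt F (F' t) t := by
    intro t ht
    apply HasDerivAt.sub
    · exact (hasDerivAt_S n A t).div_const _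
    · apply HasDerivAt.const_mul
      apply HasDerivAt.fun_sum
      intro i _
      exact (hasDerivAt_E _ t ht).const_mul _
  have hanti : AntitoneOn F (Set.Icc 0 1) := by
    apply antitoneOn_of_deriv_nonpos (convex_Icc 0 1)
    · intro t ht
      exact (hd t ht.1).continuousAt.continuousWithinAt
    · intro t ht
      rw [interior_Icc] at ht
      exact (hd t ht.1.le).differentiableAt.differentiableWithinAt
    · intro t ht
      rw [interior_Icc] at ht
      rw [(hd t ht.1.le).deriv]
      simp only [hF']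
      rw [sum_div, mul_sum, ← sum_sub_distrib]
      apply sum_nonpos
      intro i _
      have := Q_le_beta i A t ht.1.le ht.2.le
      linarith
  have h01 := hanti (Set.left_mem_Icc.2 zero_le_one) (Set.right_mem_Icc.2 zero_le_one) zero_le_one
  simp only [hF] at h01
  rw [S_zero, S_one] at h01
  have e4 : (4 : ℝ) ^ n = 2 ^ n * 2 ^ n := by rw [← mul_pow]; norm_num
  have hpos : (0 : ℝ) < 2 ^ n := by positivity
  have hs : ∑ i : Fin n, beta i A * (4 - beta i A) / (3 + 2 * Real.log (1 / beta i A)) =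
      ∑ i : Fin n, beta i A * E (-Real.log (beta i A)) 1 -
      ∑ i : Fin n, beta i A * E (-Real.log (beta i A)) 0 := by
    rw [← sum_sub_distrib]
    refine sum_congr rfl fun i _ => ?_
    rw [← mul_sub]
    rcases eq_or_lt_of_le (beta_nonneg i A) with h0 | h0
    · rw [← h0]; simp
    · have hL : 0 ≤ -Real.log (beta i A) := by
        have := Real.log_nonpos h0.le (beta_le_one i A)
        linarith
      rw [E_diff _ hL, neg_neg, Real.exp_log h0, one_div, Real.log_inv]
      ring
  rw [hs]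
  have e5 : 4 * ((A.card : ℝ) / 2 ^ n) * (1 - (A.card : ℝ) / 2 ^ n) =
      4 * (2 ^ n * (A.card : ℝ) / 4 ^ n - (A.card : ℝ) ^ 2 / 4 ^ n) := by
    rw [e4]; field_simp
  rw [e5]
  linarith

end Pool.Agent.W542.Tal
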