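import Mathlib

set_option autoImplicit false

namespace Pool.Agent.W542.Tal

/-- for `0 < z < 1` and `q <= 0` the two powers have sum at least two -/
theorem neg_pow_sum (q z : ℝ) (hq : q ≤ 0) (hz0 : 0 ≤ z) (hz1 : z < 1) :
    2 ≤ (1 + z) ^ q + (1 - z) ^ q := by
  have h1 : (0 : ℝ) < 1 + z := by linarith
  have h2 : (0 : ℝ) < 1 - z := by linarith
  have ha : 0 < (1 + z) ^ q := Real.rpow_pos_of_pos h1 q
  have hb : 0 < (1 - z) ^ q := Real.rpow_pos_of_pos h2 q
  have hab : 1 ≤ (1 + z) ^ q * (1 - z) ^ q := by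
    rw [← Real.mul_rpow h1.le h2.le]
    apply Real.one_le_rpow_of_pos_of_le_one_of_nonpos
    · positivity
    · nlinarith
    · exact hq
  nlinarith [sq_nonneg ((1 + z) ^ q - (1 - z) ^ q)]

theorem first_deriv_nonneg (p z : ℝ) (hp1 : 1 ≤ p) (hp2 : p ≤ 2) (hz0 : 0 ≤ z) (hz1 : z ≤ 1) :
    0 ≤ (1 + z) ^ (p - 1) - (1 - z) ^ (p - 1) - 2 * (p - 1) * z := by
  set k : ℝ → ℝ := fun z => (1 + z) ^ (p - 1) - (1 - z) ^ (p - 1) - 2 * (p - 1) * z with hk
  have hd : ∀ x ∈ interior (Set.Icc (0 : ℝ) 1), HasDerivAt k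
      ((p - 1) * (1 + x) ^ (p - 2) + (p - 1) * (1 - x) ^ (p - 2) - 2 * (p - 1)) x := by
    intro x hx
    rw [interior_Icc] at hx
    have h1 : (1 : ℝ) + x ≠ 0 := by linarith [hx.1]
    have h2 : (1 : ℝ) - x ≠ 0 := by linarith [hx.2]
    have d1 : HasDerivAt (fun y : ℝ => (1 + y) ^ (p - 1)) (1 * (p - 1) * (1 + x) ^ (p - 1 - 1)) x :=
      ((hasDerivAt_id x).const_add 1).rpow_const (Or.inl h1)
    have d2 : HasDerivAt (fun y : ℝ => (1 - y) ^ (p - 1)) (-1 * (p - 1) * (1 - x) ^ (p - 1 - 1)) x :=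
      ((hasDerivAt_id x).const_sub 1).rpow_const (Or.inl h2)
    have d3 : HasDerivAt (fun y : ℝ => 2 * (p - 1) * y) (2 * (p - 1)) x := by
      simpa using (hasDerivAt_id x).const_mul (2 * (p - 1))
    have e : p - 1 - 1 = p - 2 := by ring
    rw [e] at d1 d2
    have d4 : HasDerivAt k _ x := (d1.sub d2).sub d3
    exact d4.congr_deriv (by ring)
  have hc : ContinuousOn k (Set.Icc 0 1) := by
    apply ContinuousOn.sub
    · apply ContinuousOn.sub
      · exact ContinuousOn.rpow_const (by fun_prop) (fun x _ => Or.inr (by linarith))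
      · exact ContinuousOn.rpow_const (by fun_prop) (fun x _ => Or.inr (by linarith))
    · fun_prop
  have hm : MonotoneOn k (Set.Icc 0 1) := by
    apply monotoneOn_of_deriv_nonneg (convex_Icc 0 1) hc
    · intro x hx
      exact (hd x hx).differentiableAt.differentiableWithinAt
    · intro x hx
      rw [(hd x hx).deriv]
      rw [interior_Icc] at hx
      have := neg_pow_sum (p - 2) x (by linarith) hx.1.le hx.2
      nlinarith
  have h0 : k 0 = 0 := by simp [hk]
  have := hm (Set.left_mem_Icc.2 zero_le_one) ⟨hz0, hz1⟩ hz0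
  rw [h0] at this
  exact this

theorem two_point_one (p z : ℝ) (hp1 : 1 ≤ p) (hp2 : p ≤ 2) (hz0 : 0 ≤ z) (hz1 : z ≤ 1) :
    2 + p * (p - 1) * z ^ 2 ≤ (1 + z) ^ p + (1 - z) ^ p := by
  set k : ℝ → ℝ := fun z => (1 + z) ^ p + (1 - z) ^ p - p * (p - 1) * z ^ 2 with hk
  have hd : ∀ x ∈ interior (Set.Icc (0 : ℝ) 1), HasDerivAt k
      (p * ((1 + x) ^ (p - 1) - (1 - x) ^ (p - 1) - 2 * (p - 1) * x)) x := by
    intro x hx
    rw [interior_Icc] at hx
    have h1 : (1 : ℝ) + x ≠ 0 := by linarith [hx.1]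
    have h2 : (1 : ℝ) - x ≠ 0 := by linarith [hx.2]
    have d1 : HasDerivAt (fun y : ℝ => (1 + y) ^ p) (1 * p * (1 + x) ^ (p - 1)) x :=
      ((hasDerivAt_id x).const_add 1).rpow_const (Or.inl h1)
    have d2 : HasDerivAt (fun y : ℝ => (1 - y) ^ p) (-1 * p * (1 - x) ^ (p - 1)) x :=
      ((hasDerivAt_id x).const_sub 1).rpow_const (Or.inl h2)
    have d3 : HasDerivAt (fun y : ℝ => p * (p - 1) * y ^ 2) (p * (p - 1) * (2 * x)) x := by
      have := (hasDerivAt_pow 2 x).const_mul (p * (p - 1))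
      simpa using this
    have d4 : HasDerivAt k _ x := (d1.add d2).sub d3
    exact d4.congr_deriv (by ring)
  have hc : ContinuousOn k (Set.Icc 0 1) := by
    apply ContinuousOn.sub
    · apply ContinuousOn.add
      · exact ContinuousOn.rpow_const (by fun_prop) (fun x _ => Or.inr (by linarith))
      · exact ContinuousOn.rpow_const (by fun_prop) (fun x _ => Or.inr (by linarith))
    · fun_prop
  have hm : MonotoneOn k (Set.Icc 0 1) := by
    apply monotoneOn_of_deriv_nonneg (convex_Icc 0 1) hc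
    · intro x hx
      exact (hd x hx).differentiableAt.differentiableWithinAt
    · intro x hx
      rw [(hd x hx).deriv]
      rw [interior_Icc] at hx
      have := first_deriv_nonneg p x hp1 hp2 hx.1.le hx.2.le
      exact mul_nonneg (by linarith) this
  have h0 : k 0 = 2 := by simp [hk]; norm_num
  have h := hm (Set.left_mem_Icc.2 zero_le_one) ⟨hz0, hz1⟩ hz0
  rw [h0] at h
  have : k z = (1 + z) ^ p + (1 - z) ^ p - p * (p - 1) * z ^ 2 := rfl
  linarith

/-- the two point inequality of Bonami -/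
theorem two_point_z (p z : ℝ) (hp1 : 1 ≤ p) (hp2 : p ≤ 2) (hz0 : 0 ≤ z) (hz1 : z ≤ 1) :
    1 + (p - 1) * z ^ 2 ≤ (((1 + z) ^ p + (1 - z) ^ p) / 2) ^ (2 / p) := by
  have hp : 0 < p := by linarith
  have h1 : 1 + p * (p - 1) / 2 * z ^ 2 ≤ ((1 + z) ^ p + (1 - z) ^ p) / 2 := by
    have := two_point_one p z hp1 hp2 hz0 hz1
    linarith
  have h0 : 0 ≤ p * (p - 1) / 2 * z ^ 2 := by
    have : 0 ≤ p - 1 := by linarith
    positivity
  have h2 : 1 ≤ 2 / p := by rw [le_div_iff₀ hp]; linarith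
  calc 1 + (p - 1) * z ^ 2 = 1 + 2 / p * (p * (p - 1) / 2 * z ^ 2) := by
        field_simp
    _ ≤ (1 + p * (p - 1) / 2 * z ^ 2) ^ (2 / p) :=
        one_add_mul_self_le_rpow_one_add (by linarith) h2
    _ ≤ _ := Real.rpow_le_rpow (by linarith) h1 (by positivity)

theorem two_point (p a b : ℝ) (hp1 : 1 ≤ p) (hp2 : p ≤ 2) (ha : 0 ≤ a) (hb : 0 ≤ b) :
    (a + b) ^ 2 + (p - 1) * (a - b) ^ 2 ≤ 4 * ((a ^ p + b ^ p) / 2) ^ (2 / p) := by
  wlog hab : b ≤ a with H
  · have := H p b a hp1 hp2 hb ha (by linarith)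
    have e1 : (b + a) ^ 2 + (p - 1) * (b - a) ^ 2 = (a + b) ^ 2 + (p - 1) * (a - b) ^ 2 := by ring
    rw [e1, add_comm (b ^ p)] at this
    exact this
  have hp : 0 < p := by linarith
  rcases eq_or_lt_of_le (add_nonneg ha hb) with h | h
  · have hb0 : b = 0 := by linarith
    have ha0 : a = 0 := by linarith
    subst hb0; subst ha0
    simp only [add_zero, sub_zero]
    have : (0 : ℝ) ≤ ((0 ^ p + 0 ^ p) / 2 : ℝ) ^ (2 / p) := by positivity
    nlinarith
  · set m := (a + b) / 2 with hm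
    have hm0 : 0 < m := by positivity
    set z := (a - b) / (a + b) with hz
    have hz0 : 0 ≤ z := div_nonneg (by linarith) h.le
    have hz1 : z ≤ 1 := by rw [hz, div_le_one h]; linarith
    have e1 : a = m * (1 + z) := by rw [hm, hz]; field_simp; ring
    have e2 : b = m * (1 - z) := by rw [hm, hz]; field_simp; ring
    have e3 : a ^ p + b ^ p = m ^ p * ((1 + z) ^ p + (1 - z) ^ p) := by
      rw [e1, e2, Real.mul_rpow hm0.le (by linarith), Real.mul_rpow hm0.le (by linarith)]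
      ring
    have e4 : ((a ^ p + b ^ p) / 2) ^ (2 / p) =
        m ^ 2 * (((1 + z) ^ p + (1 - z) ^ p) / 2) ^ (2 / p) := by
      rw [e3, mul_div_assoc, Real.mul_rpow (by positivity)
        (by
          have := Real.rpow_nonneg (by linarith : (0:ℝ) ≤ 1 + z) p
          have := Real.rpow_nonneg (by linarith : (0:ℝ) ≤ 1 - z) p
          positivity), ← Real.rpow_mul hm0.le]
      congr 1
      rw [mul_div_cancel₀ _ hp.ne']
      norm_num
    have h2 := two_point_z p z hp1 hp2 hz0 hz1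
    rw [e4]
    have e5 : (a + b) ^ 2 + (p - 1) * (a - b) ^ 2 = 4 * (m ^ 2 * (1 + (p - 1) * z ^ 2)) := by
      have : a - b = 2 * m * z := by linarith
      have h3 : a + b = 2 * m := by rw [hm]; ring
      rw [this, h3]; ring
    rw [e5]
    have : m ^ 2 * (1 + (p - 1) * z ^ 2) ≤ m ^ 2 * (((1 + z) ^ p + (1 - z) ^ p) / 2) ^ (2 / p) :=
      mul_le_mul_of_nonneg_left h2 (by positivity)
    linarith

end Pool.Agent.W542.Tal
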